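import Pool.Agent.Helper87.SL.Goals

set_option autoImplicit false

open Finset

namespace Pool.Agent.Helper49.SL

open Pool.Agent.Helper87.SL

theorem ordP_eq (k n q : ℕ) (χ : ℕ → Fin k) :
    ordP χ n q = ∑ c : Fin k, ∑ m ∈ Icc 1 n,
      if χ m = c then rep ((Icc 1 n).filter (fun x => χ x = c)) (m + q) else 0 := by
  classical
  unfold ordP
  rw [Finset.card_eq_sum_card_fiberwise (f := fun p : ℕ × ℕ => (χ p.1, p.1 + p.2 - q))
    (t := (univ : Finset (Fin k)) ×ˢ Icc 1 n)]
  · rw [Finset.sum_product]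
    apply Finset.sum_congr rfl
    intro c _
    apply Finset.sum_congr rfl
    intro m hm
    rw [Finset.mem_Icc] at hm
    by_cases hc : χ m = c
    · rw [if_pos hc]
      unfold rep
      congr 1
      ext ⟨x, y⟩
      simp only [Finset.mem_filter, Finset.mem_product, Finset.mem_Icc, Prod.mk.injEq]
      constructor
      · rintro ⟨⟨⟨hx, hy⟩, h1, h2, h3, h4⟩, h5, h6⟩
        refine ⟨⟨⟨hx, h5⟩, ⟨hy, ?_⟩⟩, by omega⟩
        rw [← h3, h5]
      · rintro ⟨⟨⟨hx, h5⟩, ⟨hy, h6⟩⟩, h7⟩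
        have h8 : x + y - q = m := by omega
        refine ⟨⟨⟨hx, hy⟩, by omega, by omega, by rw [h5, h6], ?_⟩, h5, h8⟩
        rw [h8, h6, hc]
    · rw [if_neg hc, Finset.card_eq_zero]
      apply Finset.eq_empty_of_forall_notMem
      rintro ⟨x, y⟩ hp
      simp only [Finset.mem_filter, Finset.mem_product, Finset.mem_Icc, Prod.mk.injEq] at hp
      obtain ⟨⟨⟨hx, hy⟩, h1, h2, h3, h4⟩, h5, h6⟩ := hp
      apply hc
      rw [← h6, ← h4, ← h3, h5]
  · rintro ⟨x, y⟩ hp
    simp only [Finset.coe_filter, Finset.mem_product, Finset.mem_Icc, Set.mem_setOf_eq] at hp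
    obtain ⟨⟨hx, hy⟩, h1, h2, h3, h4⟩ := hp
    simp only [Finset.coe_product, Finset.coe_univ, Set.mem_prod, Set.mem_univ, Finset.coe_Icc,
      Set.mem_Icc, true_and]
    omega

theorem gCMP : Pool.Agent.Helper87.SL.G_CMP := by
  classical
  intro k n q χ
  rw [ordP_eq k n q χ, ordP_eq k n 0 χ]
  push_cast
  rw [← Finset.sum_add_distrib]
  apply Finset.sum_le_sum
  intro c _
  rw [← Finset.sum_add_distrib]
  apply Finset.sum_le_sum
  intro m _
  by_cases hc : χ m = c
  · rw [if_pos hc, if_pos hc, Nat.add_zero]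
    have := le_abs_self ((rep ((Icc 1 n).filter (fun x => χ x = c)) (m + q) : ℝ) -
        rep ((Icc 1 n).filter (fun x => χ x = c)) m)
    linarith
  · rw [if_neg hc, if_neg hc, zero_add]
    exact abs_nonneg _

end Pool.Agent.Helper49.SL
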